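import Pool.Agent.TH116.SC.Ext
import Pool.Agent.TH116.SC.Mult

/-!
# Degrees in the enlarged extended Selberg class modulo one
-/

namespace Pool.Agent.Results.MP_bac04d_nt.DegreesModOne

open Pool.Agent.TH116.SC

/-- Let `0 ≤ a < c ≤ 1` and let `N` be a real number. All degrees `d ≥ 0` of elements of the enlarged
extended Selberg class are integers if and only if no degree `d ≥ 0` with `d ≥ N` has its fractional
part in the interval `(a, c)` or equal to `1 / p` for a prime number `p ≤ 1 / (c - a)`. -/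
theorem result (a c N : ℝ) (ha : 0 ≤ a) (hac : a < c) (hc : c ≤ 1) :
    (∀ F : ExtFn, 0 ≤ F.degree → ∃ n : ℤ, F.degree = n) ↔
      ∀ F : ExtFn, 0 ≤ F.degree → N ≤ F.degree → Int.fract F.degree ∉ Set.Ioo a c ∧
        ∀ p : ℕ, p.Prime → (p : ℝ) * (c - a) ≤ 1 → Int.fract F.degree ≠ 1 / p := by
  constructor
  · intro h F h0 _
    obtain ⟨n, hn⟩ := h F h0
    rw [hn, Int.fract_intCast]
    refine ⟨fun h0 => absurd h0.1 (not_lt.2 ha), fun p hp _ h0 => ?_⟩
    have : (0 : ℝ) < 1 / p := by
      have : (0 : ℝ) < p := by exact_mod_cast hp.pos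
      positivity
    linarith
  · intro h F hF
    by_contra hcon
    rw [not_exists] at hcon
    have hd0 : 0 < F.degree := by
      rcases hF.lt_or_eq with h1 | h1
      · exact h1
      · exact absurd (by rw [← h1]; simp) (hcon 0)
    obtain ⟨N', hN'⟩ := exists_nat_gt (N / F.degree)
    obtain ⟨k, hk, hk1, hor⟩ := exists_multiple ha hac hc hcon N'
    have hdeg : (F.pow (k - 1)).degree = k * F.degree := by
      rw [F.degree_pow]
      congr 1
      rw [Nat.cast_sub hk1]
      push_cast
      ring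
    have hbig : N ≤ (F.pow (k - 1)).degree := by
      rw [hdeg]
      rw [div_lt_iff₀ hd0] at hN'
      have h1 : (N' : ℝ) ≤ k := by exact_mod_cast hk
      have h2 : (N' : ℝ) * F.degree ≤ k * F.degree := mul_le_mul_of_nonneg_right h1 hd0.le
      linarith
    obtain ⟨h1, h2⟩ := h (F.pow (k - 1)) (by rw [hdeg]; positivity) hbig
    rw [hdeg] at h1 h2
    rcases hor with h3 | ⟨p, hp, hpc, h3⟩
    · exact h1 h3
    · exact h2 p hp hpc h3

end Pool.Agent.Results.MP_bac04d_nt.DegreesModOne
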